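import Mathlib
set_option autoImplicit false
set_option maxHeartbeats 400000

namespace Pool.Agent.Results.MP_cb51c9_co.Greedy
open Finset

/-- S has no solution of 5w+2x = 5y+2z with (w,x) ≠ (y,z). -/
def Free (S : Set ℕ) : Prop :=
  ∀ w ∈ S, ∀ x ∈ S, ∀ y ∈ S, ∀ z ∈ S, 5 * w + 2 * x = 5 * y + 2 * z → (w, x) = (y, z)

/-- Stage i of the greedy construction: the set {g_0, ..., g_i} and the last term g_i. -/
noncomputable def gs : ℕ → Set ℕ × ℕ
  | 0 => ({0}, 0)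
  | i + 1 => (insert (sInf {n | (gs i).2 < n ∧ Free (insert n (gs i).1)}) (gs i).1,
      sInf {n | (gs i).2 < n ∧ Free (insert n (gs i).1)})

/-- The greedy set G. -/
def G : Set ℕ := Set.range fun i => (gs i).2

/-- a_0 = 0 and a_i = floor ((c + 7 (a_0 + ... + a_(i-1))) / 2). -/
def a (c : ℕ) : ℕ → ℕ
  | 0 => 0
  | i + 1 => (c + 7 * ∑ j : Fin (i + 1), a c j) / 2

/-- The set of all 5x+y with x a finite sum of distinct terms a_i and 0 ≤ y ≤ 4. -/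
def H (c : ℕ) : Set ℕ := {n | ∃ (F : Finset ℕ) (y : ℕ), y ≤ 4 ∧ n = 5 * ∑ i ∈ F, a c i + y}

def s (i : ℕ) : ℕ := ∑ j ∈ range (i + 1), a 6 j

lemma sa (i : ℕ) : a 6 (i + 1) = (6 + 7 * s i) / 2 ∧ s (i + 1) = s i + a 6 (i + 1) :=
  ⟨by rw [a, s, sum_range], sum_range_succ _ _⟩

def In : ℕ → ℕ → Prop
  | 0, x => x = 0
  | i + 1, x => ∃ y, In i y ∧ (x = y ∨ x = y + a 6 (i + 1))

lemma le (i : ℕ) : ∀ x, In i x → x ≤ s i := by
  induction i with
  | zero => intro x h; rw [show x = 0 from h]; exact Nat.zero_le _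
  | succ i ih => rintro x ⟨y, h, e⟩; have := ih y h; have := sa i; omega

lemma mono {i j x : ℕ} (h : i ≤ j) (hx : In i x) : In j x := by
  induction h with
  | refl => exact hx
  | step _ ih => exact ⟨x, ih, .inl rfl⟩

lemma iff (i : ℕ) : ∀ x, In i x ↔ ∃ F ⊆ range (i + 1), ∑ j ∈ F, a 6 j = x := by
  induction i with
  | zero =>
    refine fun x => ⟨fun h => ⟨∅, by simp, h.symm⟩, ?_⟩
    rintro ⟨F, h, rfl⟩
    exact sum_eq_zero fun j hj => by
      obtain rfl : j = 0 := by simpa using h hj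
      rw [a]
  | succ i ih =>
    refine fun x => ⟨?_, ?_⟩
    · rintro ⟨y, h', e⟩
      obtain ⟨F, h, rfl⟩ := (ih y).1 h'
      rcases e with rfl | rfl
      · exact ⟨F, h.trans (by simp), rfl⟩
      · exact ⟨insert (i + 1) F, by rw [range_add_one]; exact insert_subset_insert _ h, by
          rw [sum_insert fun t => by simpa using h t, add_comm]⟩
    · rintro ⟨F, h, rfl⟩
      refine ⟨_, (ih _).2 ⟨F.erase (i + 1), fun t ht => ?_, rfl⟩, ?_⟩
      · have := h (mem_of_mem_erase ht); have := ne_of_mem_erase ht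
        simp only [mem_range] at *; omega
      · by_cases e : i + 1 ∈ F
        · exact .inr (sum_erase_add _ _ e).symm
        · exact .inl (by rw [erase_eq_of_notMem e])

lemma mH (n : ℕ) : n ∈ H 6 ↔ ∃ i, In i (n / 5) := by
  constructor
  · rintro ⟨F, y, h, rfl⟩
    exact ⟨F.sup id, (iff _ _).2 ⟨F, fun t ht => mem_range.2
      (Nat.lt_succ_of_le (le_sup (f := id) ht)), by omega⟩⟩
  · rintro ⟨i, h⟩
    obtain ⟨F, -, e⟩ := (iff _ _).1 h
    exact ⟨F, n % 5, by omega, by omega⟩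

lemma fr (i : ℕ) : ∀ x z w y, In i x → In i z → In i w → In i y →
    2 * z + 5 * y ≤ 2 * x + 5 * w + 4 → 2 * x + 5 * w ≤ 2 * z + 5 * y + 4 → x = z := by
  induction i with
  | zero => intro x z _ _ h k _ _ _ _; exact h.trans k.symm
  | succ i ih =>
    rintro _ _ _ _ ⟨x, hx, ex⟩ ⟨z, hz, ez⟩ ⟨w, hw, ew⟩ ⟨y, hy, ey⟩ h k
    have := ih x z w y hx hz hw hy
    have := le i x hx; have := le i z hz; have := le i w hw; have := le i y hy
    have := (sa i).1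
    omega

lemma cov (i : ℕ) : ∀ v : ℤ, -5 * s i - 4 ≤ v → v ≤ 7 * s i + 4 → ∃ x w y : ℕ,
    In i x ∧ In i w ∧ In i y ∧ v + 5 * y ≤ 2 * x + 5 * w + 4 ∧ 2 * x + 5 * w ≤ v + 5 * y + 4 := by
  induction i with
  | zero => exact fun v h k => ⟨0, 0, 0, rfl, rfl, rfl, by simp [s, a] at h k ⊢; omega⟩
  | succ i ih =>
    intro v h k
    obtain ⟨e1, e2⟩ := sa i
    obtain ⟨p, q, r, hp, hq, hr, h1, h2⟩ : ∃ p q r : ℕ, (p = 0 ∨ p = a 6 (i + 1)) ∧
        (q = 0 ∨ q = a 6 (i + 1)) ∧ (r = 0 ∨ r = a 6 (i + 1)) ∧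
        -5 * s i - 4 ≤ v - 2 * p - 5 * q + 5 * r ∧ v - 2 * p - 5 * q + 5 * r ≤ 7 * s i + 4 := by
      by_contra t
      push Not at t
      have t1 := t 0 0 _ (.inl rfl) (.inl rfl) (.inr rfl)
      have t2 := t _ 0 _ (.inr rfl) (.inl rfl) (.inr rfl)
      have t3 := t 0 0 0 (.inl rfl) (.inl rfl) (.inl rfl)
      have t4 := t _ 0 0 (.inr rfl) (.inl rfl) (.inl rfl)
      have t5 := t 0 _ 0 (.inl rfl) (.inr rfl) (.inl rfl)
      have t6 := t _ _ 0 (.inr rfl) (.inr rfl) (.inl rfl)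
      omega
    obtain ⟨x, w, y, hx, hw, hy, l1, l2⟩ := ih _ h1 h2
    exact ⟨x + p, w + q, y + r, ⟨x, hx, by omega⟩, ⟨w, hw, by omega⟩, ⟨y, hy, by omega⟩,
      by push_cast; omega, by push_cast; omega⟩

lemma blk (i : ℕ) : ∀ v, v < a 6 (i + 1) → ¬ In i v → ∃ x w y : ℕ, In i x ∧ In i w ∧ In i y ∧
    x < v ∧ w < v ∧ y < v ∧ 2 * v + 5 * y ≤ 2 * x + 5 * w + 4 ∧
      2 * x + 5 * w ≤ 2 * v + 5 * y + 4 := by
  have big : ∀ i v, v < a 6 (i + 1) → s i < v → ∃ x w y : ℕ, In i x ∧ In i w ∧ In i y ∧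
      x < v ∧ w < v ∧ y < v ∧ 2 * v + 5 * y ≤ 2 * x + 5 * w + 4 ∧
        2 * x + 5 * w ≤ 2 * v + 5 * y + 4 := fun i v h k => by
    have := (sa i).1
    obtain ⟨x, w, y, hx, hw, hy, l1, l2⟩ := cov i (2 * v) (by omega) (by omega)
    have := le i x hx; have := le i w hw; have := le i y hy
    exact ⟨x, w, y, hx, hw, hy, by omega⟩
  induction i with
  | zero => exact fun v h k => big 0 v h (by simpa [s, a] using Nat.pos_of_ne_zero k)
  | succ i ih =>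
    intro v h k
    obtain ⟨e1, e2⟩ := sa i
    by_cases c : s (i + 1) < v
    · exact big _ v h c
    by_cases d : v < a 6 (i + 1)
    · obtain ⟨x, w, y, hx, hw, hy, l⟩ := ih v d fun t => k ⟨v, t, .inl rfl⟩
      exact ⟨x, w, y, ⟨x, hx, .inl rfl⟩, ⟨w, hw, .inl rfl⟩, ⟨y, hy, .inl rfl⟩, l⟩
    · obtain ⟨x, w, y, hx, hw, hy, l⟩ := ih (v - a 6 (i + 1)) (by omega)
        fun t => k ⟨_, t, .inr (by omega)⟩
      exact ⟨_, _, _, ⟨x, hx, .inr rfl⟩, ⟨w, hw, .inr rfl⟩, ⟨y, hy, .inr rfl⟩, by omega⟩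

lemma gr (i : ℕ) : i ≤ s i ∧ In i 0 := by
  induction i with
  | zero => exact ⟨le_refl _ |>.trans (Nat.zero_le _), rfl⟩
  | succ i ih => have := sa i; exact ⟨by omega, 0, ih.2, .inl rfl⟩

lemma free : Free (H 6) := by
  intro w hw x hx y hy z hz e
  obtain ⟨i, hi⟩ := (mH w).1 hw
  obtain ⟨j, hj⟩ := (mH x).1 hx
  obtain ⟨k, hk⟩ := (mH y).1 hy
  obtain ⟨l, hl⟩ := (mH z).1 hz
  have := fr (i + j + k + l) _ _ _ _ (mono (by omega) hj) (mono (by omega) hl)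
    (mono (by omega) hi) (mono (by omega) hk) (by omega) (by omega)
  rw [Prod.mk.injEq]; omega

lemma block (n : ℕ) (h : n ∉ H 6) : ¬ Free (insert n (H 6 ∩ Set.Iio n)) := fun f => by
  have := sa n; have := gr n
  obtain ⟨x, w, y, hx, hw, hy, l⟩ := blk n (n / 5) (by omega) fun t => h ((mH n).2 ⟨n, t⟩)
  have m : ∀ t r, In n t → t < n / 5 → r ≤ 4 → 5 * t + r ∈ insert n (H 6 ∩ Set.Iio n) :=
    fun t r a b c => .inr ⟨(mH _).2 ⟨n, by rwa [show (5 * t + r) / 5 = t by omega]⟩,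
      show 5 * t + r < n by omega⟩
  have := f _ (m w (2 * (n / 5) + 5 * y - (2 * x + 5 * w)) hw (by omega) (by omega))
    _ (m x (n % 5) hx (by omega) (by omega))
    _ (m y (2 * x + 5 * w - (2 * (n / 5) + 5 * y)) hy (by omega) (by omega)) n (.inl rfl)
    (by omega)
  rw [Prod.mk.injEq] at this; omega

lemma inv (i : ℕ) : (gs i).1 = H 6 ∩ Set.Iic (gs i).2 ∧ (gs i).2 ∈ H 6 ∧ i ≤ (gs i).2 ∧
    (gs i).1 ⊆ G := by
  have sub : ∀ S T : Set ℕ, S ⊆ T → Free T → Free S := fun S T h f w a x b y c z d =>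
    f w (h a) x (h b) y (h c) z (h d)
  induction i with
  | zero =>
    have : 0 ∈ H 6 := (mH 0).2 ⟨0, rfl⟩
    exact ⟨by ext; simp +contextual [gs, this], this, le_rfl, by rintro _ rfl; exact ⟨0, rfl⟩⟩
  | succ i ih =>
    obtain ⟨h1, h2, h3, h4⟩ := ih
    have q : ∀ n ∈ H 6, (gs i).2 < n → n ∈ {n | (gs i).2 < n ∧ Free (insert n (gs i).1)} :=
      fun n hn l => ⟨l, sub _ _ (by rw [h1]; exact Set.insert_subset hn Set.inter_subset_left) free⟩
    have e : (gs (i + 1)).1 = insert (gs (i + 1)).2 (gs i).1 := rfl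
    have := sa (gs i).2; have := gr (gs i).2
    obtain ⟨n1, n2⟩ : (gs (i + 1)).2 ∈ {n | (gs i).2 < n ∧ Free (insert n (gs i).1)} :=
      Nat.sInf_mem ⟨_, q (5 * a 6 ((gs i).2 + 1)) ((mH _).2 ⟨_ + 1, 0, this.2, .inr (by omega)⟩)
        (by omega)⟩
    have n3 : ∀ n ∈ H 6, n < (gs (i + 1)).2 → n ≤ (gs i).2 := fun n hn l =>
      not_lt.1 fun t => Nat.notMem_of_lt_sInf l (q n hn t)
    have n4 : (gs (i + 1)).2 ∈ H 6 := by_contra fun t => block _ t (sub _ _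
      (Set.insert_subset_insert fun n hn => h1 ▸ ⟨hn.1, n3 n hn.1 hn.2⟩) n2)
    refine ⟨?_, n4, by omega, e ▸ Set.insert_subset ⟨i + 1, rfl⟩ h4⟩
    rw [e, h1]
    ext n
    have := n3 n
    simp only [Set.mem_insert_iff, Set.mem_inter_iff, Set.mem_Iic]
    grind

theorem result : G = H 6 ∧ G ≠ H 5 := by
  have e : G = H 6 := Set.Subset.antisymm (by rintro _ ⟨i, rfl⟩; exact (inv i).2.1)
    fun n hn => (inv n).2.2.2 ((inv n).1 ▸ ⟨hn, (inv n).2.2.1⟩)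
  refine ⟨e, fun h => ?_⟩
  have f := free
  rw [← e, h] at f
  have := f 4 ⟨∅, 4, by simp⟩ 0 ⟨∅, 0, by simp⟩ 0 ⟨∅, 0, by simp⟩ 10 ⟨{1}, 0, by simp [a]⟩ rfl
  simp at this

end Pool.Agent.Results.MP_cb51c9_co.Greedy
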